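import Pool.Agent.TH579.OgpMain
import Pool.Agent.Helper292.ForceCH

/-!
`S_1(Ω, Ω)` and `S_1(Ω, O^{ω-gp})` are consistently distinct: the continuum hypothesis can be
forced, and it implies that some set of reals satisfies the second property but not the first.
-/

set_option autoImplicit false

namespace Pool.Agent.Results.MP_ef066b_gt.ConsistentlyDistinct

open Pool.Agent.TH579.Ogp

/-- (1) There is a nonempty forcing notion all of whose conditions force that `ω₁` is preserved and
that the continuum hypothesis holds. (2) The continuum hypothesis implies that there is a set of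
reals which satisfies `S_1(Ω, O^{ω-gp})` and does not satisfy `S_1(Ω, Ω)`. -/
theorem result :
    (∃ (P : Type) (_ : Preorder P), Nonempty P ∧ ∀ p : P,
      p ∈ Pool.Agent.Helper292.ForceCH.OmegaOnePreserved P ∧
      p ∈ Pool.Agent.Helper292.ForceCH.CHHolds P) ∧
    (Cardinal.aleph 1 = Cardinal.continuum.{0} →
      ∃ X : Set ℝ, S1 (OmegaCover X) (OmegaGroupable X) ∧
        ¬ S1 (OmegaCover X) (OmegaCover X)) := by
  refine ⟨?_, main⟩
  obtain ⟨P, i, h1, h2⟩ := Pool.Agent.Helper292.ForceCH.exists_forcing
  exact ⟨P, i, h1, fun p => ⟨(h2 p).1, (h2 p).2.2⟩⟩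

end Pool.Agent.Results.MP_ef066b_gt.ConsistentlyDistinct
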